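import Pool.Agent.KS6_21.BurnsideTwo

set_option autoImplicit false

/-!
Explicit two-generated subgroups of free Burnside groups of any exponent divisible by three, odd or
even, that are not free products of two cyclic groups modulo `N`-th powers, for any `N`.
-/

namespace Pool.Agent.KS6_21.BurnsideThree

open Pool.Agent.KS6_21.BurnsideTwo

/-- The abstract form of the argument: in a group of exponent `n = 3 l` with two elements `s`, `t`
of order three such that `s t⁻¹` and `t⁻¹ s` map to a basis of `(ℤ/M)²` under a homomorphism from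
the subgroup which they generate, `M` odd and not a divisor of `l`, this subgroup is not a Burnside
product of cyclic groups, of any exponent `N`. -/
theorem core {n l M : ℕ} (hnl : n = 3 * l) (hodd : Odd M) (hMl : ¬ M ∣ l) {G : Type*} [Group G]
    (hG : ∀ g : G, g ^ n = 1) (s t : G) (hs : s ^ 3 = 1) (ht : t ^ 3 = 1)
    (pi : (Subgroup.closure {s * t⁻¹, t⁻¹ * s} : Subgroup G) →* Multiplicative (ZMod M × ZMod M))
    (ha : s * t⁻¹ ∈ Subgroup.closure {s * t⁻¹, t⁻¹ * s})
    (hb : t⁻¹ * s ∈ Subgroup.closure {s * t⁻¹, t⁻¹ * s})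
    (hpa : Multiplicative.toAdd (pi ⟨s * t⁻¹, ha⟩) = (-1, 0))
    (hpb : Multiplicative.toAdd (pi ⟨t⁻¹ * s, hb⟩) = (1, 1))
    (N r r' : ℕ)
    (φ : (Subgroup.closure {s * t⁻¹, t⁻¹ * s} : Subgroup G) ≃* P N r r') : False := by
  let H : Subgroup G := Subgroup.closure {s * t⁻¹, t⁻¹ * s}
  let η : FreeGroup (Fin 2) →* H := FreeGroup.lift ![⟨s * t⁻¹, ha⟩, ⟨t⁻¹ * s, hb⟩]
  have hη0 : η (FreeGroup.of 0) = ⟨s * t⁻¹, ha⟩ := by simp [η]
  have hη1 : η (FreeGroup.of 1) = ⟨t⁻¹ * s, hb⟩ := by simp [η]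
  have hη : Function.Surjective η := by
    rintro ⟨h, hh⟩
    have hle : H ≤ (H.subtype.comp η).range := by
      rw [Subgroup.closure_le]
      rintro x (rfl | hx)
      · exact ⟨FreeGroup.of 0, by rw [MonoidHom.comp_apply, hη0]; rfl⟩
      · rw [Set.mem_singleton_iff] at hx
        rw [hx]
        exact ⟨FreeGroup.of 1, by rw [MonoidHom.comp_apply, hη1]; rfl⟩
    obtain ⟨w, hw⟩ := hle hh
    exact ⟨w, Subtype.ext hw⟩
  -- step one
  let q : FreeGroup (Fin 2) →* P N r r' := QuotientGroup.mk' _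
  have hq : Function.Surjective q := QuotientGroup.mk'_surjective _
  let F1 : FreeGroup (Fin 2) →* Multiplicative (ZMod M × ZMod M) :=
    (pi.comp φ.symm.toMonoidHom).comp q
  have hF1 : ∀ w, F1 w = pi (φ.symm (q w)) := fun w => rfl
  obtain ⟨w0, hw0⟩ := hq (φ (⟨s * t⁻¹, ha⟩⁻¹))
  obtain ⟨w1, hw1⟩ := hq (φ (⟨s * t⁻¹, ha⟩ * ⟨t⁻¹ * s, hb⟩))
  have e0 : Multiplicative.toAdd (F1 w0) = (1, 0) := by
    rw [hF1, hw0, MulEquiv.symm_apply_apply, map_inv, toAdd_inv, hpa]
    simp
  have e1 : Multiplicative.toAdd (F1 w1) = (0, 1) := by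
    rw [hF1, hw1, MulEquiv.symm_apply_apply, map_mul, toAdd_mul, hpa, hpb]
    simp
  have hr0 : q (FreeGroup.of 0 ^ r) = 1 := by
    show (QuotientGroup.mk (FreeGroup.of 0 ^ r) : P N r r') = 1
    rw [QuotientGroup.eq_one_iff]
    exact Subgroup.subset_normalClosure (by simp)
  have hr1 : q (FreeGroup.of 1 ^ r') = 1 := by
    show (QuotientGroup.mk (FreeGroup.of 1 ^ r') : P N r r') = 1
    rw [QuotientGroup.eq_one_iff]
    exact Subgroup.subset_normalClosure (by simp)
  have f0 : r • Multiplicative.toAdd (F1 (FreeGroup.of 0)) = 0 := by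
    rw [← toAdd_pow, ← map_pow, hF1, hr0, map_one, map_one, toAdd_one]
  have f1 : r' • Multiplicative.toAdd (F1 (FreeGroup.of 1)) = 0 := by
    rw [← toAdd_pow, ← map_pow, hF1, hr1, map_one, map_one, toAdd_one]
  have hrz : (r : ZMod M) = 0 := by
    apply det_cancel F1 e0 e1
    have g1 : r • (Multiplicative.toAdd (F1 (FreeGroup.of 0))).1 = 0 := congrArg Prod.fst f0
    have g2 : r • (Multiplicative.toAdd (F1 (FreeGroup.of 0))).2 = 0 := congrArg Prod.snd f0
    rw [nsmul_eq_mul] at g1 g2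
    linear_combination (Multiplicative.toAdd (F1 (FreeGroup.of 1))).2 * g1 -
      (Multiplicative.toAdd (F1 (FreeGroup.of 1))).1 * g2
  have hrz' : (r' : ZMod M) = 0 := by
    apply det_cancel F1 e0 e1
    have g1 : r' • (Multiplicative.toAdd (F1 (FreeGroup.of 1))).1 = 0 := congrArg Prod.fst f1
    have g2 : r' • (Multiplicative.toAdd (F1 (FreeGroup.of 1))).2 = 0 := congrArg Prod.snd f1
    rw [nsmul_eq_mul] at g1 g2
    linear_combination (Multiplicative.toAdd (F1 (FreeGroup.of 0))).1 * g2 -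
      (Multiplicative.toAdd (F1 (FreeGroup.of 0))).2 * g1
  have hNz : M ∣ N := by
    have hqN : q (w0 ^ N) = 1 := by
      show (QuotientGroup.mk (w0 ^ N) : P N r r') = 1
      rw [QuotientGroup.eq_one_iff]
      exact Subgroup.subset_normalClosure (Or.inr ⟨w0, rfl⟩)
    have fN : N • Multiplicative.toAdd (F1 w0) = 0 := by
      rw [← toAdd_pow, ← map_pow, hF1, hqN, map_one, map_one, toAdd_one]
    rw [e0] at fN
    have g1 : N • (1 : ZMod M) = 0 := congrArg Prod.fst fN
    rw [nsmul_eq_mul, mul_one] at g1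
    exact (ZMod.natCast_eq_zero_iff _ _).1 g1
  -- step two: the map to the Heisenberg group
  let X : Heis (ZMod M) := ⟨1, 0, 0⟩
  let Y : Heis (ZMod M) := ⟨0, 1, 0⟩
  let θ : FreeGroup (Fin 2) →* Heis (ZMod M) := FreeGroup.lift ![X, Y]
  have hθ : Subgroup.normalClosure
      (({FreeGroup.of (0 : Fin 2) ^ r, FreeGroup.of (1 : Fin 2) ^ r'} :
        Set (FreeGroup (Fin 2))) ∪
      Set.range (fun g : FreeGroup (Fin 2) => g ^ N)) ≤ θ.ker := by
    apply Subgroup.normalClosure_le_normal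
    rintro x ((rfl | hx) | ⟨g, rfl⟩)
    · rw [SetLike.mem_coe, MonoidHom.mem_ker, map_pow, FreeGroup.lift_apply_of, Heis.pow_eq]
      ext <;> simp [X, hrz]
    · rw [Set.mem_singleton_iff] at hx
      rw [hx, SetLike.mem_coe, MonoidHom.mem_ker, map_pow, FreeGroup.lift_apply_of, Heis.pow_eq]
      ext <;> simp [Y, hrz']
    · rw [SetLike.mem_coe, MonoidHom.mem_ker, map_pow]
      obtain ⟨N', rfl⟩ := hNz
      rw [pow_mul, heis_pow_exponent hodd, one_pow]
  let Θ : P N r r' →* Heis (ZMod M) := QuotientGroup.lift _ θ (fun w hw => hθ hw)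
  have hΘ : ∀ w, Θ (q w) = θ w := fun w => rfl
  let f : H →* Heis (ZMod M) := Θ.comp φ.toMonoidHom
  have hf : ∀ h, f h = Θ (φ h) := fun h => rfl
  let F2 : FreeGroup (Fin 2) →* Multiplicative (ZMod M × ZMod M) :=
    ((proj _).comp f).comp η
  have hF2 : ∀ w, F2 w = proj _ (Θ (φ (η w))) := fun w => rfl
  obtain ⟨v0, hv0⟩ := hη (φ.symm (q (FreeGroup.of 0)))
  obtain ⟨v1, hv1⟩ := hη (φ.symm (q (FreeGroup.of 1)))
  have k0 : Multiplicative.toAdd (F2 v0) = (1, 0) := by
    rw [hF2, hv0, MulEquiv.apply_symm_apply, hΘ]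
    simp [θ, X, proj]
  have k1 : Multiplicative.toAdd (F2 v1) = (0, 1) := by
    rw [hF2, hv1, MulEquiv.apply_symm_apply, hΘ]
    simp [θ, Y, proj]
  have hcomm0 : ((t⁻¹ * s)⁻¹ * (s * t⁻¹) * (t⁻¹ * s) * (s * t⁻¹)⁻¹) ^ l = 1 := by
    rw [comm_eq_cube s t hs ht, ← pow_mul, ← hnl]
    exact hG _
  have hcomm : ((⟨t⁻¹ * s, hb⟩ : H)⁻¹ * ⟨s * t⁻¹, ha⟩ * ⟨t⁻¹ * s, hb⟩ *
      (⟨s * t⁻¹, ha⟩ : H)⁻¹) ^ l = 1 :=
    Subtype.ext hcomm0
  have hcomm2 := congrArg f hcomm
  rw [map_pow, map_mul, map_mul, map_mul, map_inv, map_inv, map_one] at hcomm2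
  have m0 : F2 (FreeGroup.of 0) = proj _ (f ⟨s * t⁻¹, ha⟩) := by
    show proj _ (f (η (FreeGroup.of 0))) = _
    rw [hη0]
  have m1 : F2 (FreeGroup.of 1) = proj _ (f ⟨t⁻¹ * s, hb⟩) := by
    show proj _ (f (η (FreeGroup.of 1))) = _
    rw [hη1]
  have hlz : (l : ZMod M) = 0 := by
    apply det_cancel F2 k0 k1
    rw [m0, m1]
    show (l : ZMod M) * ((f ⟨s * t⁻¹, ha⟩).x * (f ⟨t⁻¹ * s, hb⟩).y -
      (f ⟨t⁻¹ * s, hb⟩).x * (f ⟨s * t⁻¹, ha⟩).y) = 0
    have hz := congrArg Heis.z hcomm2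
    rw [Heis.pow_eq] at hz
    simp only [Heis.mul_x, Heis.mul_y, Heis.mul_z, Heis.inv_x, Heis.inv_y, Heis.inv_z,
      Heis.one_z] at hz
    linear_combination hz
  rw [ZMod.natCast_eq_zero_iff] at hlz
  exact hMl hlz

theorem main {n : ℕ} (hn0 : n ≠ 0) (h3 : 3 ∣ n) {X : Type*} (x0 x1 : X) (hx : x0 ≠ x1) :
    ∃ e : ℕ, (∃ m : ℕ, ¬ 3 ∣ m ∧ e * 3 = n * m) ∧ ∀ N r r' : ℕ,
      IsEmpty ((Subgroup.closure
        {(QuotientGroup.mk (FreeGroup.of x0) : B X n) ^ e *
          ((QuotientGroup.mk (FreeGroup.of x1) : B X n) ^ e)⁻¹,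
        ((QuotientGroup.mk (FreeGroup.of x1) : B X n) ^ e)⁻¹ *
          (QuotientGroup.mk (FreeGroup.of x0) : B X n) ^ e} : Subgroup (B X n)) ≃* P N r r') := by
  classical
  obtain ⟨K, m, hm, hKm⟩ := Nat.exists_eq_pow_mul_and_not_dvd hn0 3 (by norm_num)
  have hK : K ≠ 0 := by
    rintro rfl
    rw [pow_zero, one_mul] at hKm
    exact hm (hKm ▸ h3)
  obtain ⟨k, rfl⟩ := Nat.exists_eq_succ_of_ne_zero hK
  rw [Nat.succ_eq_add_one] at hKm
  have hn1 : 1 < n := by
    have : 3 ≤ n := Nat.le_of_dvd (Nat.pos_of_ne_zero hn0) h3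
    omega
  have hq : 0 < 3 ^ k := by positivity
  obtain ⟨A, iA, z, lam, hchar, hz3, hl0, hl1⟩ := exists_ring n (3 ^ k) hn1 hq
  set c : A := ∑ t ∈ Finset.range (3 ^ k), z ^ t with hc
  set ω : A := z ^ (3 ^ k) with hω
  have hzN : z ^ (3 ^ (k + 1)) = 1 := by
    rw [pow_succ, pow_mul]
    exact omega_cube hz3
  obtain ⟨N, hN⟩ : ∃ N, 3 ^ (k + 1) = N + 1 :=
    ⟨3 ^ (k + 1) - 1, by have : 0 < 3 ^ (k + 1) := by positivity
                         omega⟩
  have hzN1 : z * z ^ N = 1 := by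
    rw [← pow_succ', ← hN, hzN]
  have hzN2 : z ^ N * z = 1 := by
    rw [mul_comm, hzN1]
  let S : Equiv.Perm A :=
    { toFun := fun v => z * v
      invFun := fun v => z ^ N * v
      left_inv := fun v => by
        show z ^ N * (z * v) = v
        rw [← mul_assoc, hzN2, one_mul]
      right_inv := fun v => by
        show z * (z ^ N * v) = v
        rw [← mul_assoc, hzN1, one_mul] }
  let T : Equiv.Perm A :=
    { toFun := fun v => z * v + 1
      invFun := fun v => z ^ N * (v - 1)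
      left_inv := fun v => by
        show z ^ N * (z * v + 1 - 1) = v
        rw [add_sub_cancel_right, ← mul_assoc, hzN2, one_mul]
      right_inv := fun v => by
        show z * (z ^ N * (v - 1)) + 1 = v
        rw [← mul_assoc, hzN1, one_mul, sub_add_cancel] }
  have hS : ∀ v, S v = z * v + 0 := fun v => (add_zero _).symm
  have hT : ∀ v, T v = z * v + 1 := fun v => rfl
  have gS : Good z S := ⟨1, 0, fun v => by rw [hS, pow_one]⟩
  have gT : Good z T := ⟨1, 1, fun v => by rw [hT, pow_one]⟩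
  let Psi : FreeGroup X →* Equiv.Perm A :=
    FreeGroup.lift (fun x => if x = x0 then S else if x = x1 then T else 1)
  have gof : ∀ x : X, Good z (Psi (FreeGroup.of x)) := by
    intro x
    rw [FreeGroup.lift_apply_of]
    split_ifs
    · exact gS
    · exact gT
    · exact good_one z
  have gPsi : ∀ w, Good z (Psi w) := by
    intro w
    induction w using FreeGroup.induction_on with
    | C1 => rw [map_one]; exact good_one z
    | of x => exact gof x
    | inv_of x _ =>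
      rw [map_inv]
      exact good_inv (hN ▸ hzN) (gof x)
    | mul x y hx hy => rw [map_mul]; exact good_mul hx hy
  have hker : Subgroup.normalClosure (Set.range fun g : FreeGroup X => g ^ n) ≤ Psi.ker := by
    apply Subgroup.normalClosure_le_normal
    rintro _ ⟨g, rfl⟩
    rw [SetLike.mem_coe, MonoidHom.mem_ker, map_pow]
    exact good_pow hKm hchar hz3 (gPsi g)
  let PsiB : B X n →* Equiv.Perm A := QuotientGroup.lift _ Psi (fun w hw => hker hw)
  have hPsiB : ∀ w : FreeGroup X, PsiB (QuotientGroup.mk w) = Psi w := fun w => rfl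
  -- the two elements of order three
  obtain ⟨u, hu⟩ : ∃ u, m * m = 3 * u + 1 := by
    have hlt : m % 3 < 3 := Nat.mod_lt _ (by norm_num)
    have hne : m % 3 ≠ 0 := fun h0 => hm (Nat.dvd_of_mod_eq_zero h0)
    have : m * m % 3 = 1 := by
      rw [Nat.mul_mod]
      interval_cases hmm : m % 3
      · exact absurd rfl hne
      · rfl
      · rfl
    exact ⟨m * m / 3, by omega⟩
  set e : ℕ := 3 ^ k * (3 * u + 1) with he
  have he3 : e * 3 = n * m := by
    rw [he, ← hu, hKm]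
    ring
  let s : B X n := (QuotientGroup.mk (FreeGroup.of x0) : B X n) ^ e
  let t : B X n := (QuotientGroup.mk (FreeGroup.of x1) : B X n) ^ e
  have hs : s ^ 3 = 1 := by
    show ((QuotientGroup.mk (FreeGroup.of x0) : B X n) ^ e) ^ 3 = 1
    rw [← pow_mul, he3, pow_mul, B_pow, one_pow]
  have ht : t ^ 3 = 1 := by
    show ((QuotientGroup.mk (FreeGroup.of x1) : B X n) ^ e) ^ 3 = 1
    rw [← pow_mul, he3, pow_mul, B_pow, one_pow]
  have hze : z ^ e = ω := by
    rw [he, pow_mul, ← hω, pow_add, pow_mul, omega_cube hz3, one_pow, one_mul, pow_one]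
  have hsum : ∑ j ∈ Finset.range e, z ^ j = c := by
    rw [he, geom_mul, ← hω, ← hc, omega_sum hz3, one_mul]
  have Ps : ∀ v, PsiB s v = ω * v := by
    intro v
    show PsiB ((QuotientGroup.mk (FreeGroup.of x0) : B X n) ^ e) v = _
    rw [map_pow, hPsiB, FreeGroup.lift_apply_of, if_pos rfl, affine_pow hS, hze, mul_zero, add_zero]
  have Pt : ∀ v, PsiB t v = ω * v + c := by
    intro v
    show PsiB ((QuotientGroup.mk (FreeGroup.of x1) : B X n) ^ e) v = _
    rw [map_pow, hPsiB, FreeGroup.lift_apply_of, if_neg hx.symm, if_pos rfl, affine_pow hT, hze,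
      hsum, mul_one]
  have hω3 : ω ^ 3 = 1 := omega_cube hz3
  have Pti : ∀ v, (PsiB t)⁻¹ v = ω ^ 2 * (v - c) := by
    intro v
    rw [Equiv.Perm.inv_eq_iff_eq, Pt]
    linear_combination (c - v) * hω3
  have Pa : ∀ v, PsiB (s * t⁻¹) v = v + (-c) := by
    intro v
    rw [map_mul, map_inv, Equiv.Perm.mul_apply, Pti, Ps]
    linear_combination (v - c) * hω3
  have Pb : ∀ v, PsiB (t⁻¹ * s) v = v + (c + ω * c) := by
    intro v
    rw [map_mul, map_inv, Equiv.Perm.mul_apply, Pti, Ps]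
    linear_combination v * hω3 - c * hz3
  have htrans : ∀ h : B X n, h ∈ Subgroup.closure ({s * t⁻¹, t⁻¹ * s} : Set (B X n)) →
      ∃ w : A, ∀ v, PsiB h v = v + w := by
    intro h hh
    induction hh using Subgroup.closure_induction with
    | mem x hx =>
      rcases hx with rfl | hx
      · exact ⟨_, Pa⟩
      · rw [Set.mem_singleton_iff] at hx
        rw [hx]
        exact ⟨_, Pb⟩
    | one => exact ⟨0, fun v => by rw [map_one, add_zero]; rfl⟩
    | mul x y _ _ hx hy =>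
      obtain ⟨w, hw⟩ := hx
      obtain ⟨w', hw'⟩ := hy
      refine ⟨w' + w, fun v => ?_⟩
      rw [map_mul, Equiv.Perm.mul_apply, hw', hw, add_assoc]
    | inv x _ hx =>
      obtain ⟨w, hw⟩ := hx
      refine ⟨-w, fun v => ?_⟩
      rw [map_inv, Equiv.Perm.inv_eq_iff_eq, hw, neg_add_cancel_right]
  let pi : (Subgroup.closure {s * t⁻¹, t⁻¹ * s} : Subgroup (B X n)) →*
      Multiplicative (ZMod n × ZMod n) :=
    { toFun := fun h => Multiplicative.ofAdd (lam (PsiB (h : B X n) 0))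
      map_one' := by
        show Multiplicative.ofAdd (lam (PsiB (1 : B X n) 0)) = 1
        rw [map_one]
        show Multiplicative.ofAdd (lam 0) = 1
        rw [map_zero]
        rfl
      map_mul' := fun x y => by
        obtain ⟨w, hw⟩ := htrans x x.2
        obtain ⟨w', hw'⟩ := htrans y y.2
        show Multiplicative.ofAdd (lam (PsiB ((x : B X n) * (y : B X n)) 0)) =
          Multiplicative.ofAdd (lam (PsiB (x : B X n) 0) + lam (PsiB (y : B X n) 0))
        rw [map_mul, Equiv.Perm.mul_apply, hw', hw, hw, ← map_add]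
        congr 2
        abel }
  have ha : s * t⁻¹ ∈ Subgroup.closure ({s * t⁻¹, t⁻¹ * s} : Set (B X n)) :=
    Subgroup.subset_closure (by simp)
  have hb : t⁻¹ * s ∈ Subgroup.closure ({s * t⁻¹, t⁻¹ * s} : Set (B X n)) :=
    Subgroup.subset_closure (by simp)
  have hnl : n = 3 * (3 ^ k * m) := by
    rw [hKm]
    ring
  let cst : ZMod n →+ ZMod (3 ^ (k + 1)) :=
    (ZMod.castHom (⟨m, hKm⟩ : 3 ^ (k + 1) ∣ n) (ZMod (3 ^ (k + 1)))).toAddMonoidHom
  have hcst1 : cst 1 = 1 := map_one (ZMod.castHom (⟨m, hKm⟩ : 3 ^ (k + 1) ∣ n) _)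
  let c2 : Multiplicative (ZMod n × ZMod n) →*
      Multiplicative (ZMod (3 ^ (k + 1)) × ZMod (3 ^ (k + 1))) :=
    AddMonoidHom.toMultiplicative (AddMonoidHom.prodMap cst cst)
  have hMo : Odd (3 ^ (k + 1)) := Odd.pow (by decide)
  have hMl : ¬ 3 ^ (k + 1) ∣ 3 ^ k * m := by
    rw [pow_succ]
    intro h
    exact hm (Nat.dvd_of_mul_dvd_mul_left hq h)
  refine ⟨e, ⟨m, hm, he3⟩, fun N' r r' => ⟨fun φ => ?_⟩⟩
  refine core hnl hMo hMl B_pow s t hs ht (c2.comp pi) ha hb ?_ ?_ N' r r' φ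
  · have h1 : pi ⟨s * t⁻¹, ha⟩ = Multiplicative.ofAdd (-1, 0) := by
      show Multiplicative.ofAdd (lam (PsiB (s * t⁻¹) 0)) = _
      rw [Pa, zero_add, map_neg, hl0]
      simp
    rw [MonoidHom.comp_apply, h1]
    show (cst (-1), cst 0) = _
    rw [map_neg, hcst1, map_zero]
  · have h1 : pi ⟨t⁻¹ * s, hb⟩ = Multiplicative.ofAdd (1, 1) := by
      show Multiplicative.ofAdd (lam (PsiB (t⁻¹ * s) 0)) = _
      rw [Pb, zero_add, map_add, hl0, hl1]
      simp
    rw [MonoidHom.comp_apply, h1]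
    show (cst 1, cst 1) = _
    rw [hcst1]

/-- The same with the exponent `n / 3`. -/
theorem main_explicit {n : ℕ} (hn0 : n ≠ 0) (h3 : 3 ∣ n) {X : Type*} (x0 x1 : X) (hx : x0 ≠ x1)
    (N r r' : ℕ) :
      IsEmpty ((Subgroup.closure
        {(QuotientGroup.mk (FreeGroup.of x0) : B X n) ^ (n / 3) *
          ((QuotientGroup.mk (FreeGroup.of x1) : B X n) ^ (n / 3))⁻¹,
        ((QuotientGroup.mk (FreeGroup.of x1) : B X n) ^ (n / 3))⁻¹ *
          (QuotientGroup.mk (FreeGroup.of x0) : B X n) ^ (n / 3)} : Subgroup (B X n)) ≃*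
            P N r r') := by
  obtain ⟨e, ⟨m, hm, he⟩, h⟩ := main hn0 h3 x0 x1 hx
  set a : B X n := (QuotientGroup.mk (FreeGroup.of x0) : B X n) with ha
  set b : B X n := (QuotientGroup.mk (FreeGroup.of x1) : B X n) with hb
  obtain ⟨l, hl⟩ := h3
  have hdiv : n / 3 = l := by omega
  have hel : e = l * m := by
    have : e * 3 = l * m * 3 := by rw [he, hl]; ring
    omega
  have hcube : ∀ g : B X n, (g ^ l) ^ 3 = 1 := by
    intro g
    rw [← pow_mul, mul_comm l 3, ← hl]
    exact B_pow g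
  rw [hdiv]
  have hpow : ∀ g : B X n, m % 3 = 1 → g ^ e = g ^ l := by
    intro g h1
    rw [hel, pow_mul]
    have : m = 3 * (m / 3) + 1 := by omega
    rw [this, pow_add, pow_mul, hcube, one_pow, one_mul, pow_one]
  have hpow2 : ∀ g : B X n, m % 3 = 2 → g ^ e = (g ^ l)⁻¹ := by
    intro g h1
    rw [hel, pow_mul]
    have : m = 3 * (m / 3) + 2 := by omega
    rw [this, pow_add, pow_mul, hcube, one_pow, one_mul]
    apply eq_inv_of_mul_eq_one_left
    rw [← pow_succ]
    exact hcube g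
  have hm3 : m % 3 = 1 ∨ m % 3 = 2 := by omega
  rcases hm3 with h1 | h1
  · have h' := h N r r'
    rw [hpow a h1, hpow b h1] at h'
    exact h'
  · have h' := h N r r'
    rw [hpow2 a h1, hpow2 b h1, inv_inv] at h'
    have hset : Subgroup.closure ({a ^ l * (b ^ l)⁻¹, (b ^ l)⁻¹ * a ^ l} : Set (B X n)) =
        Subgroup.closure ({(a ^ l)⁻¹ * b ^ l, b ^ l * (a ^ l)⁻¹} : Set (B X n)) := by
      apply le_antisymm
      · rw [Subgroup.closure_le]
        rintro x (rfl | hx)
        · have : a ^ l * (b ^ l)⁻¹ = (b ^ l * (a ^ l)⁻¹)⁻¹ := by group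
          rw [this]
          exact Subgroup.inv_mem _ (Subgroup.subset_closure (by simp))
        · rw [Set.mem_singleton_iff] at hx
          have : x = ((a ^ l)⁻¹ * b ^ l)⁻¹ := by rw [hx]; group
          rw [this]
          exact Subgroup.inv_mem _ (Subgroup.subset_closure (by simp))
      · rw [Subgroup.closure_le]
        rintro x (rfl | hx)
        · have : (a ^ l)⁻¹ * b ^ l = ((b ^ l)⁻¹ * a ^ l)⁻¹ := by group
          rw [this]
          exact Subgroup.inv_mem _ (Subgroup.subset_closure (by simp))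
        · rw [Set.mem_singleton_iff] at hx
          have : x = (a ^ l * (b ^ l)⁻¹)⁻¹ := by rw [hx]; group
          rw [this]
          exact Subgroup.inv_mem _ (Subgroup.subset_closure (by simp))
    rw [hset]
    exact h'

end Pool.Agent.KS6_21.BurnsideThree
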