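import Mathlib

set_option autoImplicit false

/-!
Two-generated subgroups of free Burnside groups of odd exponent divisible by three that are not
Burnside products of two cyclic groups, for every rank at least two.
-/

namespace Pool.Agent.KS6_21.BurnsideTwo

/-- Elements of the Heisenberg group over `R`. -/
@[ext] structure Heis (R : Type) where
  x : R
  y : R
  z : R

namespace Heis

variable {R : Type} [CommRing R]

instance : Mul (Heis R) := ⟨fun a b => ⟨a.x + b.x, a.y + b.y, a.z + b.z + a.x * b.y⟩⟩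
instance : One (Heis R) := ⟨⟨0, 0, 0⟩⟩
instance : Inv (Heis R) := ⟨fun a => ⟨-a.x, -a.y, -a.z + a.x * a.y⟩⟩

@[simp] theorem mul_x (a b : Heis R) : (a * b).x = a.x + b.x := rfl
@[simp] theorem mul_y (a b : Heis R) : (a * b).y = a.y + b.y := rfl
@[simp] theorem mul_z (a b : Heis R) : (a * b).z = a.z + b.z + a.x * b.y := rfl
@[simp] theorem one_x : (1 : Heis R).x = 0 := rfl
@[simp] theorem one_y : (1 : Heis R).y = 0 := rfl
@[simp] theorem one_z : (1 : Heis R).z = 0 := rfl
@[simp] theorem inv_x (a : Heis R) : (a⁻¹).x = -a.x := rfl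
@[simp] theorem inv_y (a : Heis R) : (a⁻¹).y = -a.y := rfl
@[simp] theorem inv_z (a : Heis R) : (a⁻¹).z = -a.z + a.x * a.y := rfl

instance : Group (Heis R) :=
  Group.ofLeftAxioms
    (by intro a b c; ext <;> simp <;> ring)
    (by intro a; ext <;> simp)
    (by intro a; ext <;> simp)

theorem pow_eq (a : Heis R) (k : ℕ) :
    a ^ k = ⟨k * a.x, k * a.y, k * a.z + (k.choose 2 : ℕ) * (a.x * a.y)⟩ := by
  induction k with
  | zero => rw [pow_zero]; ext <;> simp
  | succ k ih =>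
    rw [pow_succ, ih]
    have h : (k + 1).choose 2 = k + k.choose 2 := by
      rw [Nat.choose_succ_succ' k 1, Nat.choose_one_right]
    ext
    · simp; ring
    · simp; ring
    · simp only [mul_z, h]; push_cast; ring

end Heis


theorem heis_pow_exponent {n : ℕ} (hn : Odd n) (a : Heis (ZMod n)) : a ^ n = 1 := by
  rw [Heis.pow_eq]
  have h0 : ((n : ℕ) : ZMod n) = 0 := ZMod.natCast_self _
  have h1 : ((n.choose 2 : ℕ) : ZMod n) = 0 := by
    obtain ⟨j, hj⟩ := hn
    have : n.choose 2 = n * j := by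
      rw [Nat.choose_two_right, show n - 1 = 2 * j by omega,
        show n * (2 * j) = 2 * (n * j) by ring]
      exact Nat.mul_div_cancel_left _ (by norm_num)
    rw [this, Nat.cast_mul, h0, zero_mul]
  ext
  · simp only [h0, zero_mul]; rfl
  · simp only [h0, zero_mul]; rfl
  · simp only [h0, h1, zero_mul, add_zero]; rfl

/-- In a group with `s ^ 3 = t ^ 3 = 1`, a commutator of `s t⁻¹` and `t⁻¹ s` is a cube. -/
theorem comm_eq_cube {G : Type*} [Group G] (s t : G) (hs : s ^ 3 = 1) (ht : t ^ 3 = 1) :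
    (t⁻¹ * s)⁻¹ * (s * t⁻¹) * (t⁻¹ * s) * (s * t⁻¹)⁻¹ = (s⁻¹ * t * s⁻¹) ^ 3 := by
  have key : ∀ u : G, u ^ 3 = 1 → u⁻¹ * u⁻¹ = u := by
    intro u hu
    calc u⁻¹ * u⁻¹ = u⁻¹ * u⁻¹ * u ^ 3 := by rw [hu, mul_one]
      _ = u := by group
  have hs' := key s hs
  have ht' := key t ht
  have h1 : (t⁻¹ * s)⁻¹ * (s * t⁻¹) * (t⁻¹ * s) * (s * t⁻¹)⁻¹
      = s⁻¹ * t * s * (t⁻¹ * t⁻¹) * s * t * s⁻¹ := by group
  have h2 : (s⁻¹ * t * s⁻¹) ^ 3 = s⁻¹ * t * (s⁻¹ * s⁻¹) * t * (s⁻¹ * s⁻¹) * t * s⁻¹ := by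
    simp only [pow_succ, pow_zero, one_mul, mul_assoc]
  rw [h1, h2, hs', ht']

theorem det_unit_aux {R : Type} [CommRing R] {p q p' q' : R} {i j i' j' : R}
    (h1 : i * p + j * p' = 1) (h2 : i * q + j * q' = 0)
    (h4 : i' * q + j' * q' = 1) {c : R}
    (hc : c * (p * q' - p' * q) = 0) : c = 0 := by
  have : (i * j' - j * i') * (p * q' - p' * q) = 1 := by
    linear_combination (i' * q + j' * q') * h1 - (i' * p + j' * p') * h2 + h4
  calc c = c * ((i * j' - j * i') * (p * q' - p' * q)) := by rw [this, mul_one]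
    _ = (i * j' - j * i') * (c * (p * q' - p' * q)) := by ring
    _ = 0 := by rw [hc, mul_zero]

theorem combos {R : Type} [CommRing R] (f : FreeGroup (Fin 2) →* Multiplicative (R × R))
    (w : FreeGroup (Fin 2)) :
    ∃ i j : ℤ, Multiplicative.toAdd (f w) =
      i • Multiplicative.toAdd (f (FreeGroup.of 0)) +
      j • Multiplicative.toAdd (f (FreeGroup.of 1)) := by
  induction w using FreeGroup.induction_on with
  | C1 => exact ⟨0, 0, by rw [map_one]; simp⟩
  | of k =>
    fin_cases k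
    · exact ⟨1, 0, by simp⟩
    · exact ⟨0, 1, by simp⟩
  | inv_of k _ =>
    fin_cases k
    · exact ⟨-1, 0, by simp⟩
    · exact ⟨0, -1, by simp⟩
  | mul x y hx hy =>
    obtain ⟨i, j, h⟩ := hx
    obtain ⟨i', j', h'⟩ := hy
    refine ⟨i + i', j + j', ?_⟩
    rw [map_mul, toAdd_mul, h, h', add_smul, add_smul]
    abel

/-- If the images of the two free generators generate `R × R`, then the determinant of these
images is not a zero divisor. -/
theorem det_cancel {R : Type} [CommRing R] (f : FreeGroup (Fin 2) →* Multiplicative (R × R))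
    {w w' : FreeGroup (Fin 2)} (hw : Multiplicative.toAdd (f w) = (1, 0))
    (hw' : Multiplicative.toAdd (f w') = (0, 1)) {c : R}
    (hc : c * ((Multiplicative.toAdd (f (FreeGroup.of 0))).1 *
        (Multiplicative.toAdd (f (FreeGroup.of 1))).2 -
      (Multiplicative.toAdd (f (FreeGroup.of 1))).1 *
        (Multiplicative.toAdd (f (FreeGroup.of 0))).2) = 0) : c = 0 := by
  obtain ⟨i, j, h⟩ := combos f w
  obtain ⟨i', j', h'⟩ := combos f w'
  rw [hw] at h
  rw [hw'] at h'
  set u := Multiplicative.toAdd (f (FreeGroup.of 0))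
  set v := Multiplicative.toAdd (f (FreeGroup.of 1))
  have e1 := congrArg Prod.fst h
  have e2 := congrArg Prod.snd h
  have e4 := congrArg Prod.snd h'
  simp only [Prod.fst_add, Prod.snd_add, Prod.smul_fst, Prod.smul_snd, zsmul_eq_mul] at e1 e2 e4
  exact det_unit_aux (i := (i : R)) (j := (j : R)) (i' := (i' : R)) (j' := (j' : R))
    e1.symm e2.symm e4.symm hc

/-- The projection of the Heisenberg group to `R × R`. -/
def proj (R : Type) [CommRing R] : Heis R →* Multiplicative (R × R) where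
  toFun g := Multiplicative.ofAdd (g.x, g.y)
  map_one' := rfl
  map_mul' _ _ := rfl


/-- The Burnside `n`-product of two cyclic groups of orders `r` and `r'`. -/
abbrev P (n r r' : ℕ) : Type :=
  FreeGroup (Fin 2) ⧸ Subgroup.normalClosure
    (({FreeGroup.of (0 : Fin 2) ^ r, FreeGroup.of (1 : Fin 2) ^ r'} : Set (FreeGroup (Fin 2))) ∪
      Set.range (fun g : FreeGroup (Fin 2) => g ^ n))

/-- The abstract form of the argument: in a group of exponent `n = 3 l` with two elements `s`, `t`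
of order three such that `s t⁻¹` and `t⁻¹ s` map to a basis of `(ℤ/n)²` under a homomorphism from
the subgroup which they generate, this subgroup is not a Burnside product of cyclic groups. -/
theorem core {n l : ℕ} (hnl : n = 3 * l) (hodd : Odd n) {G : Type*} [Group G]
    (hG : ∀ g : G, g ^ n = 1) (s t : G) (hs : s ^ 3 = 1) (ht : t ^ 3 = 1)
    (pi : (Subgroup.closure {s * t⁻¹, t⁻¹ * s} : Subgroup G) →* Multiplicative (ZMod n × ZMod n))
    (ha : s * t⁻¹ ∈ Subgroup.closure {s * t⁻¹, t⁻¹ * s})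
    (hb : t⁻¹ * s ∈ Subgroup.closure {s * t⁻¹, t⁻¹ * s})
    (hpa : Multiplicative.toAdd (pi ⟨s * t⁻¹, ha⟩) = (-1, 0))
    (hpb : Multiplicative.toAdd (pi ⟨t⁻¹ * s, hb⟩) = (1, 1))
    (r r' : ℕ)
    (φ : (Subgroup.closure {s * t⁻¹, t⁻¹ * s} : Subgroup G) ≃* P n r r') : False := by
  have hn0 : 0 < n := hodd.pos
  have hl0 : 0 < l := by omega
  let H : Subgroup G := Subgroup.closure {s * t⁻¹, t⁻¹ * s}
  let η : FreeGroup (Fin 2) →* H := FreeGroup.lift ![⟨s * t⁻¹, ha⟩, ⟨t⁻¹ * s, hb⟩]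
  have hη0 : η (FreeGroup.of 0) = ⟨s * t⁻¹, ha⟩ := by simp [η]
  have hη1 : η (FreeGroup.of 1) = ⟨t⁻¹ * s, hb⟩ := by simp [η]
  have hη : Function.Surjective η := by
    rintro ⟨h, hh⟩
    have hle : H ≤ (H.subtype.comp η).range := by
      rw [Subgroup.closure_le]
      rintro x (rfl | hx)
      · exact ⟨FreeGroup.of 0, by rw [MonoidHom.comp_apply, hη0]; rfl⟩
      · rw [Set.mem_singleton_iff] at hx
        rw [hx]
        exact ⟨FreeGroup.of 1, by rw [MonoidHom.comp_apply, hη1]; rfl⟩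
    obtain ⟨w, hw⟩ := hle hh
    exact ⟨w, Subtype.ext hw⟩
  -- step one
  let q : FreeGroup (Fin 2) →* P n r r' := QuotientGroup.mk' _
  have hq : Function.Surjective q := QuotientGroup.mk'_surjective _
  let F1 : FreeGroup (Fin 2) →* Multiplicative (ZMod n × ZMod n) :=
    (pi.comp φ.symm.toMonoidHom).comp q
  have hF1 : ∀ w, F1 w = pi (φ.symm (q w)) := fun w => rfl
  obtain ⟨w0, hw0⟩ := hq (φ (⟨s * t⁻¹, ha⟩⁻¹))
  obtain ⟨w1, hw1⟩ := hq (φ (⟨s * t⁻¹, ha⟩ * ⟨t⁻¹ * s, hb⟩))
  have e0 : Multiplicative.toAdd (F1 w0) = (1, 0) := by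
    rw [hF1, hw0, MulEquiv.symm_apply_apply, map_inv, toAdd_inv, hpa]
    simp
  have e1 : Multiplicative.toAdd (F1 w1) = (0, 1) := by
    rw [hF1, hw1, MulEquiv.symm_apply_apply, map_mul, toAdd_mul, hpa, hpb]
    simp
  have hr0 : q (FreeGroup.of 0 ^ r) = 1 := by
    show (QuotientGroup.mk (FreeGroup.of 0 ^ r) : P n r r') = 1
    rw [QuotientGroup.eq_one_iff]
    exact Subgroup.subset_normalClosure (by simp)
  have hr1 : q (FreeGroup.of 1 ^ r') = 1 := by
    show (QuotientGroup.mk (FreeGroup.of 1 ^ r') : P n r r') = 1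
    rw [QuotientGroup.eq_one_iff]
    exact Subgroup.subset_normalClosure (by simp)
  have f0 : r • Multiplicative.toAdd (F1 (FreeGroup.of 0)) = 0 := by
    rw [← toAdd_pow, ← map_pow, hF1, hr0, map_one, map_one, toAdd_one]
  have f1 : r' • Multiplicative.toAdd (F1 (FreeGroup.of 1)) = 0 := by
    rw [← toAdd_pow, ← map_pow, hF1, hr1, map_one, map_one, toAdd_one]
  have hrz : (r : ZMod n) = 0 := by
    apply det_cancel F1 e0 e1
    have g1 : r • (Multiplicative.toAdd (F1 (FreeGroup.of 0))).1 = 0 := congrArg Prod.fst f0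
    have g2 : r • (Multiplicative.toAdd (F1 (FreeGroup.of 0))).2 = 0 := congrArg Prod.snd f0
    rw [nsmul_eq_mul] at g1 g2
    linear_combination (Multiplicative.toAdd (F1 (FreeGroup.of 1))).2 * g1 -
      (Multiplicative.toAdd (F1 (FreeGroup.of 1))).1 * g2
  have hrz' : (r' : ZMod n) = 0 := by
    apply det_cancel F1 e0 e1
    have g1 : r' • (Multiplicative.toAdd (F1 (FreeGroup.of 1))).1 = 0 := congrArg Prod.fst f1
    have g2 : r' • (Multiplicative.toAdd (F1 (FreeGroup.of 1))).2 = 0 := congrArg Prod.snd f1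
    rw [nsmul_eq_mul] at g1 g2
    linear_combination (Multiplicative.toAdd (F1 (FreeGroup.of 0))).1 * g2 -
      (Multiplicative.toAdd (F1 (FreeGroup.of 0))).2 * g1
  -- step two: the map to the Heisenberg group
  let X : Heis (ZMod n) := ⟨1, 0, 0⟩
  let Y : Heis (ZMod n) := ⟨0, 1, 0⟩
  let θ : FreeGroup (Fin 2) →* Heis (ZMod n) := FreeGroup.lift ![X, Y]
  have hθ : Subgroup.normalClosure
      (({FreeGroup.of (0 : Fin 2) ^ r, FreeGroup.of (1 : Fin 2) ^ r'} :
        Set (FreeGroup (Fin 2))) ∪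
      Set.range (fun g : FreeGroup (Fin 2) => g ^ n)) ≤ θ.ker := by
    apply Subgroup.normalClosure_le_normal
    rintro x ((rfl | hx) | ⟨g, rfl⟩)
    · rw [SetLike.mem_coe, MonoidHom.mem_ker, map_pow, FreeGroup.lift_apply_of, Heis.pow_eq]
      ext <;> simp [X, hrz]
    · rw [Set.mem_singleton_iff] at hx
      rw [hx, SetLike.mem_coe, MonoidHom.mem_ker, map_pow, FreeGroup.lift_apply_of, Heis.pow_eq]
      ext <;> simp [Y, hrz']
    · rw [SetLike.mem_coe, MonoidHom.mem_ker, map_pow]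
      exact heis_pow_exponent hodd _
  let Θ : P n r r' →* Heis (ZMod n) := QuotientGroup.lift _ θ (fun w hw => hθ hw)
  have hΘ : ∀ w, Θ (q w) = θ w := fun w => rfl
  let f : H →* Heis (ZMod n) := Θ.comp φ.toMonoidHom
  have hf : ∀ h, f h = Θ (φ h) := fun h => rfl
  let F2 : FreeGroup (Fin 2) →* Multiplicative (ZMod n × ZMod n) :=
    ((proj _).comp f).comp η
  have hF2 : ∀ w, F2 w = proj _ (Θ (φ (η w))) := fun w => rfl
  obtain ⟨v0, hv0⟩ := hη (φ.symm (q (FreeGroup.of 0)))
  obtain ⟨v1, hv1⟩ := hη (φ.symm (q (FreeGroup.of 1)))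
  have k0 : Multiplicative.toAdd (F2 v0) = (1, 0) := by
    rw [hF2, hv0, MulEquiv.apply_symm_apply, hΘ]
    simp [θ, X, proj]
  have k1 : Multiplicative.toAdd (F2 v1) = (0, 1) := by
    rw [hF2, hv1, MulEquiv.apply_symm_apply, hΘ]
    simp [θ, Y, proj]
  have hcomm0 : ((t⁻¹ * s)⁻¹ * (s * t⁻¹) * (t⁻¹ * s) * (s * t⁻¹)⁻¹) ^ l = 1 := by
    rw [comm_eq_cube s t hs ht, ← pow_mul, ← hnl]
    exact hG _
  have hcomm : ((⟨t⁻¹ * s, hb⟩ : H)⁻¹ * ⟨s * t⁻¹, ha⟩ * ⟨t⁻¹ * s, hb⟩ *
      (⟨s * t⁻¹, ha⟩ : H)⁻¹) ^ l = 1 :=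
    Subtype.ext hcomm0
  have hcomm2 := congrArg f hcomm
  rw [map_pow, map_mul, map_mul, map_mul, map_inv, map_inv, map_one] at hcomm2
  have m0 : F2 (FreeGroup.of 0) = proj _ (f ⟨s * t⁻¹, ha⟩) := by
    show proj _ (f (η (FreeGroup.of 0))) = _
    rw [hη0]
  have m1 : F2 (FreeGroup.of 1) = proj _ (f ⟨t⁻¹ * s, hb⟩) := by
    show proj _ (f (η (FreeGroup.of 1))) = _
    rw [hη1]
  have hlz : (l : ZMod n) = 0 := by
    apply det_cancel F2 k0 k1
    rw [m0, m1]
    show (l : ZMod n) * ((f ⟨s * t⁻¹, ha⟩).x * (f ⟨t⁻¹ * s, hb⟩).y -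
      (f ⟨t⁻¹ * s, hb⟩).x * (f ⟨s * t⁻¹, ha⟩).y) = 0
    have hz := congrArg Heis.z hcomm2
    rw [Heis.pow_eq] at hz
    simp only [Heis.mul_x, Heis.mul_y, Heis.mul_z, Heis.inv_x, Heis.inv_y, Heis.inv_z,
      Heis.one_z] at hz
    linear_combination hz
  rw [ZMod.natCast_eq_zero_iff] at hlz
  have := Nat.le_of_dvd hl0 hlz
  omega

/-! ### Affine permutations of a commutative ring -/

section Affine

variable {A : Type} [CommRing A]

/-- Permutations of the form `v ↦ z ^ i * v + w`. -/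
def Good (z : A) (g : Equiv.Perm A) : Prop := ∃ (i : ℕ) (w : A), ∀ v, g v = z ^ i * v + w

theorem good_one (z : A) : Good z 1 := ⟨0, 0, fun v => by simp⟩

theorem good_mul {z : A} {g h : Equiv.Perm A} (hg : Good z g) (hh : Good z h) :
    Good z (g * h) := by
  obtain ⟨i, w, hg⟩ := hg
  obtain ⟨j, w', hh⟩ := hh
  refine ⟨i + j, z ^ i * w' + w, fun v => ?_⟩
  rw [Equiv.Perm.mul_apply, hg, hh, pow_add]
  ring

theorem good_inv {z : A} {N : ℕ} (hN : z ^ (N + 1) = 1) {g : Equiv.Perm A} (hg : Good z g) :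
    Good z g⁻¹ := by
  obtain ⟨i, w, hg⟩ := hg
  have h1 : z ^ (i * N) * z ^ i = 1 := by
    rw [← pow_add, show i * N + i = (N + 1) * i by ring, pow_mul, hN, one_pow]
  refine ⟨i * N, -(z ^ (i * N) * w), fun v => ?_⟩
  obtain ⟨v', rfl⟩ := g.surjective v
  rw [show g⁻¹ (g v') = v' from g.symm_apply_apply v', hg]
  linear_combination (-v') * h1

theorem affine_pow {θ w : A} {g : Equiv.Perm A} (hg : ∀ v, g v = θ * v + w) (k : ℕ) :
    ∀ v, (g ^ k) v = θ ^ k * v + (∑ t ∈ Finset.range k, θ ^ t) * w := by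
  induction k with
  | zero => intro v; simp
  | succ k ih =>
    intro v
    rw [pow_succ, Equiv.Perm.mul_apply, ih, hg, Finset.sum_range_succ]
    ring

theorem geom_mul (θ : A) (a b : ℕ) :
    ∑ t ∈ Finset.range (a * b), θ ^ t =
      (∑ j ∈ Finset.range b, (θ ^ a) ^ j) * ∑ t ∈ Finset.range a, θ ^ t := by
  induction b with
  | zero => simp
  | succ b ih =>
    rw [Nat.mul_succ, Finset.sum_range_add, ih, Finset.sum_range_succ, add_mul]
    congr 1
    rw [Finset.mul_sum]
    apply Finset.sum_congr rfl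
    intro t _
    rw [pow_add, pow_mul]

theorem omega_cube {ω : A} (h : 1 + ω + ω ^ 2 = 0) : ω ^ 3 = 1 := by
  linear_combination (ω - 1) * h

theorem omega_pow {ω : A} (h : 1 + ω + ω ^ 2 = 0) {i : ℕ} (hi : ¬ 3 ∣ i) :
    1 + ω ^ i + (ω ^ i) ^ 2 = 0 := by
  have h3 := omega_cube h
  have hlt : i % 3 < 3 := Nat.mod_lt _ (by norm_num)
  have hne : i % 3 ≠ 0 := fun h0 => hi (Nat.dvd_of_mod_eq_zero h0)
  have hi' : ω ^ i = ω ^ (i % 3) := by
    conv_lhs => rw [← Nat.div_add_mod i 3, pow_add, pow_mul, h3, one_pow, one_mul]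
  rw [hi']
  interval_cases hm : i % 3
  · exact absurd rfl hne
  · rw [pow_one]; exact h
  · have : (ω ^ 2) ^ 2 = ω := by
      calc (ω ^ 2) ^ 2 = ω ^ 3 * ω := by ring
        _ = ω := by rw [h3, one_mul]
    rw [this]
    linear_combination h

theorem geom_zero {n k m : ℕ} (hn : n = 3 ^ (k + 1) * m) (hchar : (n : A) = 0) {z : A}
    (h3 : 1 + z ^ (3 ^ k) + (z ^ (3 ^ k)) ^ 2 = 0) (i : ℕ) :
    ∑ t ∈ Finset.range n, (z ^ i) ^ t = 0 := by
  have hz : z ^ (3 ^ (k + 1)) = 1 := by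
    rw [pow_succ, pow_mul]
    exact omega_cube h3
  by_cases hi : 3 ^ (k + 1) ∣ i
  · obtain ⟨j, rfl⟩ := hi
    have h1 : z ^ (3 ^ (k + 1) * j) = 1 := by rw [pow_mul, hz, one_pow]
    rw [h1]
    simp [hchar]
  · have hi0 : i ≠ 0 := by
      rintro rfl
      exact hi (dvd_zero _)
    obtain ⟨e, j, hj, rfl⟩ := Nat.exists_eq_pow_mul_and_not_dvd hi0 3 (by norm_num)
    have he : e ≤ k := by
      by_contra hlt
      exact hi ((pow_dvd_pow 3 (by omega)).mul_right j)
    obtain ⟨d, rfl⟩ := Nat.exists_eq_add_of_le he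
    have hn' : n = (3 ^ d * 3) * (3 ^ e * m) := by
      rw [hn]; ring
    rw [hn', geom_mul _ (3 ^ d * 3), geom_mul _ (3 ^ d) 3]
    have hy : (z ^ (3 ^ e * j)) ^ (3 ^ d) = (z ^ (3 ^ (e + d))) ^ j := by
      rw [← pow_mul, ← pow_mul]
      congr 1
      ring
    have h0 : ∑ j' ∈ Finset.range 3, ((z ^ (3 ^ e * j)) ^ (3 ^ d)) ^ j' = 0 := by
      rw [hy, Finset.sum_range_succ, Finset.sum_range_succ, Finset.sum_range_succ]
      have := omega_pow h3 hj
      simp only [Finset.range_zero, Finset.sum_empty, pow_zero, pow_one, zero_add]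
      exact this
    rw [h0, zero_mul, mul_zero]

theorem good_pow {n k m : ℕ} (hn : n = 3 ^ (k + 1) * m) (hchar : (n : A) = 0) {z : A}
    (h3 : 1 + z ^ (3 ^ k) + (z ^ (3 ^ k)) ^ 2 = 0) {g : Equiv.Perm A} (hg : Good z g) :
    g ^ n = 1 := by
  obtain ⟨i, w, hg⟩ := hg
  have hz : z ^ (3 ^ (k + 1)) = 1 := by
    rw [pow_succ, pow_mul]
    exact omega_cube h3
  have h1 : (z ^ i) ^ n = 1 := by
    rw [← pow_mul, hn, show i * (3 ^ (k + 1) * m) = 3 ^ (k + 1) * (m * i) by ring, pow_mul, hz,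
      one_pow]
  ext1 v
  rw [affine_pow hg, geom_zero hn hchar h3 i, h1, one_mul, zero_mul, add_zero]
  rfl

/-- The sum `∑_{j < 3 u + 1} ω ^ j` is one. -/
theorem omega_sum {ω : A} (h : 1 + ω + ω ^ 2 = 0) (u : ℕ) :
    ∑ j ∈ Finset.range (3 * u + 1), ω ^ j = 1 := by
  have h0 : ∑ j ∈ Finset.range 3, ω ^ j = 0 := by
    rw [Finset.sum_range_succ, Finset.sum_range_succ, Finset.sum_range_succ]
    simp only [Finset.range_zero, Finset.sum_empty, pow_zero, pow_one, zero_add]
    exact h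
  rw [Finset.sum_range_succ, geom_mul, h0, mul_zero, zero_add, pow_mul, omega_cube h, one_pow]

end Affine

/-! ### The ring -/

open Polynomial in
theorem exists_ring (n q : ℕ) (hn : 1 < n) (hq : 0 < q) :
    ∃ (A : Type) (_ : CommRing A) (z : A) (lam : A →+ ZMod n × ZMod n),
      (n : A) = 0 ∧ 1 + z ^ q + (z ^ q) ^ 2 = 0 ∧
      lam (∑ t ∈ Finset.range q, z ^ t) = (1, 0) ∧
      lam (z ^ q * ∑ t ∈ Finset.range q, z ^ t) = (0, 1) := by
  have : Fact (1 < n) := ⟨hn⟩
  have : Nontrivial (ZMod n) := ZMod.nontrivial n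
  let f : (ZMod n)[X] := X ^ (2 * q) + (X ^ q + 1)
  have hdeg0 : degree ((X : (ZMod n)[X]) ^ q + 1) < ((2 * q : ℕ) : WithBot ℕ) := by
    have h1 : degree ((X : (ZMod n)[X]) ^ q + 1) ≤ ((q : ℕ) : WithBot ℕ) := by
      refine (degree_add_le _ _).trans (max_le (degree_X_pow_le q) ?_)
      exact degree_one_le.trans (by exact_mod_cast Nat.zero_le q)
    refine h1.trans_lt ?_
    exact_mod_cast (show q < 2 * q by omega)
  have hf : f.Monic := monic_X_pow_add hdeg0
  have hdeg : degree f = ((2 * q : ℕ) : WithBot ℕ) := by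
    show degree (X ^ (2 * q) + (X ^ q + 1) : (ZMod n)[X]) = _
    rw [degree_add_eq_left_of_degree_lt (by rw [degree_X_pow]; exact hdeg0), degree_X_pow]
  let z : AdjoinRoot f := AdjoinRoot.root f
  let cf : (ZMod n)[X] →+ ZMod n × ZMod n :=
    { toFun := fun p => (p.coeff 0, p.coeff q)
      map_zero' := by simp
      map_add' := fun p p' => by simp }
  let lam : AdjoinRoot f →+ ZMod n × ZMod n :=
    cf.comp (AdjoinRoot.modByMonicHom hf).toAddMonoidHom
  have hlam : ∀ p : (ZMod n)[X], degree p < degree f →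
      lam (AdjoinRoot.mk f p) = (p.coeff 0, p.coeff q) := by
    intro p hp
    show cf (AdjoinRoot.modByMonicHom hf (AdjoinRoot.mk f p)) = _
    rw [AdjoinRoot.modByMonicHom_mk, (modByMonic_eq_self_iff hf).2 hp]
    rfl
  have hdegsum : ∀ (j : ℕ), j ≤ q →
      degree (∑ t ∈ Finset.range q, (X : (ZMod n)[X]) ^ (j + t)) < degree f := by
    intro j hj
    rw [hdeg]
    refine (degree_sum_le _ _).trans_lt ?_
    rw [Finset.sup_lt_iff (WithBot.bot_lt_coe _)]
    intro t ht
    refine (degree_X_pow_le _).trans_lt ?_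
    have := Finset.mem_range.1 ht
    exact_mod_cast (show j + t < 2 * q by omega)
  refine ⟨AdjoinRoot f, inferInstance, z, lam, ?_, ?_, ?_, ?_⟩
  · have h := map_natCast (AdjoinRoot.of f) n
    rw [← h, ZMod.natCast_self, map_zero]
  · have h : AdjoinRoot.mk f f = 0 := AdjoinRoot.mk_self
    have h' : AdjoinRoot.mk f f = z ^ (2 * q) + (z ^ q + 1) := by
      show AdjoinRoot.mk f (X ^ (2 * q) + (X ^ q + 1)) = _
      rw [map_add, map_add, map_pow, map_pow, map_one, AdjoinRoot.mk_X]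
    rw [h'] at h
    rw [← pow_mul, mul_comm q 2]
    linear_combination h
  · have h : (∑ t ∈ Finset.range q, z ^ t) =
        AdjoinRoot.mk f (∑ t ∈ Finset.range q, (X : (ZMod n)[X]) ^ (0 + t)) := by
      simp [z, AdjoinRoot.mk_X]
    rw [h, hlam _ (hdegsum 0 (Nat.zero_le _))]
    simp only [zero_add, finsetSum_coeff, coeff_X_pow]
    refine Prod.ext ?_ ?_
    · show (∑ t ∈ Finset.range q, if 0 = t then (1 : ZMod n) else 0) = 1
      rw [Finset.sum_ite_eq, if_pos (Finset.mem_range.2 hq)]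
    · show (∑ t ∈ Finset.range q, if q = t then (1 : ZMod n) else 0) = 0
      rw [Finset.sum_ite_eq, if_neg (by simp)]
  · have h : (z ^ q * ∑ t ∈ Finset.range q, z ^ t) =
        AdjoinRoot.mk f (∑ t ∈ Finset.range q, (X : (ZMod n)[X]) ^ (q + t)) := by
      simp [z, AdjoinRoot.mk_X, pow_add, Finset.mul_sum]
    rw [h, hlam _ (hdegsum q le_rfl)]
    simp only [finsetSum_coeff, coeff_X_pow]
    refine Prod.ext ?_ ?_
    · show (∑ t ∈ Finset.range q, if 0 = q + t then (1 : ZMod n) else 0) = 0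
      apply Finset.sum_eq_zero
      intro t _
      rw [if_neg (by omega)]
    · show (∑ t ∈ Finset.range q, if q = q + t then (1 : ZMod n) else 0) = 1
      rw [Finset.sum_eq_single 0]
      · simp
      · intro t _ ht
        rw [if_neg (by omega)]
      · intro h0
        exact absurd (Finset.mem_range.2 hq) h0

/-! ### The free Burnside group -/

/-- The free Burnside group of exponent `n` on the set `X`. -/
abbrev B (X : Type*) (n : ℕ) : Type _ :=
  FreeGroup X ⧸ Subgroup.normalClosure (Set.range (fun g : FreeGroup X => g ^ n))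

theorem B_pow {X : Type*} {n : ℕ} (g : B X n) : g ^ n = 1 := by
  obtain ⟨w, rfl⟩ := QuotientGroup.mk_surjective g
  rw [← QuotientGroup.mk_pow, QuotientGroup.eq_one_iff]
  exact Subgroup.subset_normalClosure ⟨w, rfl⟩

theorem main {n : ℕ} (hodd : Odd n) (h3 : 3 ∣ n) {X : Type*} (x0 x1 : X) (hx : x0 ≠ x1) :
    ∃ x y : B X n, ∀ r r' : ℕ,
      IsEmpty ((Subgroup.closure {x, y} : Subgroup (B X n)) ≃* P n r r') := by
  classical
  have hn0 : n ≠ 0 := by
    rintro rfl
    exact absurd hodd (by decide)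
  obtain ⟨K, m, hm, hKm⟩ := Nat.exists_eq_pow_mul_and_not_dvd hn0 3 (by norm_num)
  have hK : K ≠ 0 := by
    rintro rfl
    rw [pow_zero, one_mul] at hKm
    exact hm (hKm ▸ h3)
  obtain ⟨k, rfl⟩ := Nat.exists_eq_succ_of_ne_zero hK
  rw [Nat.succ_eq_add_one] at hKm
  have hn1 : 1 < n := by
    have : 3 ≤ n := Nat.le_of_dvd (Nat.pos_of_ne_zero hn0) h3
    omega
  have hq : 0 < 3 ^ k := by positivity
  obtain ⟨A, iA, z, lam, hchar, hz3, hl0, hl1⟩ := exists_ring n (3 ^ k) hn1 hq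
  set c : A := ∑ t ∈ Finset.range (3 ^ k), z ^ t with hc
  set ω : A := z ^ (3 ^ k) with hω
  have hzN : z ^ (3 ^ (k + 1)) = 1 := by
    rw [pow_succ, pow_mul]
    exact omega_cube hz3
  obtain ⟨N, hN⟩ : ∃ N, 3 ^ (k + 1) = N + 1 :=
    ⟨3 ^ (k + 1) - 1, by have : 0 < 3 ^ (k + 1) := by positivity
                         omega⟩
  have hzN1 : z * z ^ N = 1 := by
    rw [← pow_succ', ← hN, hzN]
  have hzN2 : z ^ N * z = 1 := by
    rw [mul_comm, hzN1]
  let S : Equiv.Perm A :=
    { toFun := fun v => z * v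
      invFun := fun v => z ^ N * v
      left_inv := fun v => by
        show z ^ N * (z * v) = v
        rw [← mul_assoc, hzN2, one_mul]
      right_inv := fun v => by
        show z * (z ^ N * v) = v
        rw [← mul_assoc, hzN1, one_mul] }
  let T : Equiv.Perm A :=
    { toFun := fun v => z * v + 1
      invFun := fun v => z ^ N * (v - 1)
      left_inv := fun v => by
        show z ^ N * (z * v + 1 - 1) = v
        rw [add_sub_cancel_right, ← mul_assoc, hzN2, one_mul]
      right_inv := fun v => by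
        show z * (z ^ N * (v - 1)) + 1 = v
        rw [← mul_assoc, hzN1, one_mul, sub_add_cancel] }
  have hS : ∀ v, S v = z * v + 0 := fun v => (add_zero _).symm
  have hT : ∀ v, T v = z * v + 1 := fun v => rfl
  have gS : Good z S := ⟨1, 0, fun v => by rw [hS, pow_one]⟩
  have gT : Good z T := ⟨1, 1, fun v => by rw [hT, pow_one]⟩
  let Psi : FreeGroup X →* Equiv.Perm A :=
    FreeGroup.lift (fun x => if x = x0 then S else if x = x1 then T else 1)
  have gof : ∀ x : X, Good z (Psi (FreeGroup.of x)) := by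
    intro x
    rw [FreeGroup.lift_apply_of]
    split_ifs
    · exact gS
    · exact gT
    · exact good_one z
  have gPsi : ∀ w, Good z (Psi w) := by
    intro w
    induction w using FreeGroup.induction_on with
    | C1 => rw [map_one]; exact good_one z
    | of x => exact gof x
    | inv_of x _ =>
      rw [map_inv]
      exact good_inv (hN ▸ hzN) (gof x)
    | mul x y hx hy => rw [map_mul]; exact good_mul hx hy
  have hker : Subgroup.normalClosure (Set.range fun g : FreeGroup X => g ^ n) ≤ Psi.ker := by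
    apply Subgroup.normalClosure_le_normal
    rintro _ ⟨g, rfl⟩
    rw [SetLike.mem_coe, MonoidHom.mem_ker, map_pow]
    exact good_pow hKm hchar hz3 (gPsi g)
  let PsiB : B X n →* Equiv.Perm A := QuotientGroup.lift _ Psi (fun w hw => hker hw)
  have hPsiB : ∀ w : FreeGroup X, PsiB (QuotientGroup.mk w) = Psi w := fun w => rfl
  -- the two elements of order three
  obtain ⟨u, hu⟩ : ∃ u, m * m = 3 * u + 1 := by
    have hlt : m % 3 < 3 := Nat.mod_lt _ (by norm_num)
    have hne : m % 3 ≠ 0 := fun h0 => hm (Nat.dvd_of_mod_eq_zero h0)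
    have : m * m % 3 = 1 := by
      rw [Nat.mul_mod]
      interval_cases hmm : m % 3
      · exact absurd rfl hne
      · rfl
      · rfl
    exact ⟨m * m / 3, by omega⟩
  set e : ℕ := 3 ^ k * (3 * u + 1) with he
  have he3 : e * 3 = n * m := by
    rw [he, ← hu, hKm]
    ring
  let s : B X n := (QuotientGroup.mk (FreeGroup.of x0) : B X n) ^ e
  let t : B X n := (QuotientGroup.mk (FreeGroup.of x1) : B X n) ^ e
  have hs : s ^ 3 = 1 := by
    show ((QuotientGroup.mk (FreeGroup.of x0) : B X n) ^ e) ^ 3 = 1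
    rw [← pow_mul, he3, pow_mul, B_pow, one_pow]
  have ht : t ^ 3 = 1 := by
    show ((QuotientGroup.mk (FreeGroup.of x1) : B X n) ^ e) ^ 3 = 1
    rw [← pow_mul, he3, pow_mul, B_pow, one_pow]
  have hze : z ^ e = ω := by
    rw [he, pow_mul, ← hω, pow_add, pow_mul, omega_cube hz3, one_pow, one_mul, pow_one]
  have hsum : ∑ j ∈ Finset.range e, z ^ j = c := by
    rw [he, geom_mul, ← hω, ← hc, omega_sum hz3, one_mul]
  have Ps : ∀ v, PsiB s v = ω * v := by
    intro v
    show PsiB ((QuotientGroup.mk (FreeGroup.of x0) : B X n) ^ e) v = _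
    rw [map_pow, hPsiB, FreeGroup.lift_apply_of, if_pos rfl, affine_pow hS, hze, mul_zero, add_zero]
  have Pt : ∀ v, PsiB t v = ω * v + c := by
    intro v
    show PsiB ((QuotientGroup.mk (FreeGroup.of x1) : B X n) ^ e) v = _
    rw [map_pow, hPsiB, FreeGroup.lift_apply_of, if_neg hx.symm, if_pos rfl, affine_pow hT, hze,
      hsum, mul_one]
  have hω3 : ω ^ 3 = 1 := omega_cube hz3
  have Pti : ∀ v, (PsiB t)⁻¹ v = ω ^ 2 * (v - c) := by
    intro v
    rw [Equiv.Perm.inv_eq_iff_eq, Pt]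
    linear_combination (c - v) * hω3
  have Pa : ∀ v, PsiB (s * t⁻¹) v = v + (-c) := by
    intro v
    rw [map_mul, map_inv, Equiv.Perm.mul_apply, Pti, Ps]
    linear_combination (v - c) * hω3
  have Pb : ∀ v, PsiB (t⁻¹ * s) v = v + (c + ω * c) := by
    intro v
    rw [map_mul, map_inv, Equiv.Perm.mul_apply, Pti, Ps]
    linear_combination v * hω3 - c * hz3
  have htrans : ∀ h : B X n, h ∈ Subgroup.closure ({s * t⁻¹, t⁻¹ * s} : Set (B X n)) →
      ∃ w : A, ∀ v, PsiB h v = v + w := by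
    intro h hh
    induction hh using Subgroup.closure_induction with
    | mem x hx =>
      rcases hx with rfl | hx
      · exact ⟨_, Pa⟩
      · rw [Set.mem_singleton_iff] at hx
        rw [hx]
        exact ⟨_, Pb⟩
    | one => exact ⟨0, fun v => by rw [map_one, add_zero]; rfl⟩
    | mul x y _ _ hx hy =>
      obtain ⟨w, hw⟩ := hx
      obtain ⟨w', hw'⟩ := hy
      refine ⟨w' + w, fun v => ?_⟩
      rw [map_mul, Equiv.Perm.mul_apply, hw', hw, add_assoc]
    | inv x _ hx =>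
      obtain ⟨w, hw⟩ := hx
      refine ⟨-w, fun v => ?_⟩
      rw [map_inv, Equiv.Perm.inv_eq_iff_eq, hw, neg_add_cancel_right]
  let pi : (Subgroup.closure {s * t⁻¹, t⁻¹ * s} : Subgroup (B X n)) →*
      Multiplicative (ZMod n × ZMod n) :=
    { toFun := fun h => Multiplicative.ofAdd (lam (PsiB (h : B X n) 0))
      map_one' := by
        show Multiplicative.ofAdd (lam (PsiB (1 : B X n) 0)) = 1
        rw [map_one]
        show Multiplicative.ofAdd (lam 0) = 1
        rw [map_zero]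
        rfl
      map_mul' := fun x y => by
        obtain ⟨w, hw⟩ := htrans x x.2
        obtain ⟨w', hw'⟩ := htrans y y.2
        show Multiplicative.ofAdd (lam (PsiB ((x : B X n) * (y : B X n)) 0)) =
          Multiplicative.ofAdd (lam (PsiB (x : B X n) 0) + lam (PsiB (y : B X n) 0))
        rw [map_mul, Equiv.Perm.mul_apply, hw', hw, hw, ← map_add]
        congr 2
        abel }
  have ha : s * t⁻¹ ∈ Subgroup.closure ({s * t⁻¹, t⁻¹ * s} : Set (B X n)) :=
    Subgroup.subset_closure (by simp)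
  have hb : t⁻¹ * s ∈ Subgroup.closure ({s * t⁻¹, t⁻¹ * s} : Set (B X n)) :=
    Subgroup.subset_closure (by simp)
  have hnl : n = 3 * (3 ^ k * m) := by
    rw [hKm]
    ring
  refine ⟨s * t⁻¹, t⁻¹ * s, fun r r' => ⟨fun φ => ?_⟩⟩
  refine core hnl hodd B_pow s t hs ht pi ha hb ?_ ?_ r r' φ
  · show lam (PsiB (s * t⁻¹) 0) = (-1, 0)
    rw [Pa, zero_add, map_neg, hl0]
    simp
  · show lam (PsiB (t⁻¹ * s) 0) = (1, 1)
    rw [Pb, zero_add, map_add, hl0, hl1]
    simp

end Pool.Agent.KS6_21.BurnsideTwo
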